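import Pool.Agent.H308R2.ZS.Stubs

/-! Lebesgue subalgebra of the Jiang-Su algebra (combination). -/

set_option autoImplicit false

open scoped ComplexConjugate Kronecker Matrix.Norms.L2Operator

namespace Pool.Agent.H308R2.ZS.T_LEB

open Pool.Agent.H923R2.FP Pool.Agent.H923R2.FZ Pool.Agent.H308R2.ZS

theorem t_LEB (hJFT : S_JFT) (hBAI : S_BAI) (hDNZ : S_DNZ) (hLBX : S_LBX) : S_LEB := by
  intro Z _ τ hZ
  have hF : FTS τ := hJFT Z τ hZ
  obtain ⟨x, hx, hat⟩ := hBAI Z τ hZ.trace hF.bound (hDNZ Z τ hZ)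
  exact hLBX Z τ hF x hx hat

end Pool.Agent.H308R2.ZS.T_LEB
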